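import Mathlib
import Pool.Agent.Run7.h129.Mer.Fin

set_option autoImplicit false

/-!
# The ratios of consecutive exponents for almost every amplitude in base two

For real `β > 0` and a prime `p` let `W β p` be the `p`-rough part (the product, with multiplicity,
of the prime factors larger than `p`) of the largest integer below `β * 2 ^ p`. For `β = 1` this is
the Mersenne number `2 ^ p - 1` itself. The exponents of `β` are the primes `p` with `W β p` prime.
The base `2` is fixed. By the law of the starting file `BaseTwoLaw` the number of the exponents up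
to `n` is asymptotic to `(e ^ γ / log 2) log n` for almost every `β`, so the average (geometric mean)
of the ratio of consecutive exponents is `2 ^ (e ^ (-γ)) = 1.4757…`, the number for which the
Mersenne conjecture of the question is a statement about the growth of the exponents.

We prove that there is a constant `c > 0` such that for almost every `β > 0`

* the set of the limit points of `log (q / p)`, where `p < q` are consecutive exponents, has in
  `[0, log 2]` Lebesgue measure at least `c`;
* the ratio of consecutive exponents is infinitely often smaller than `2 ^ (e ^ (-γ)) - c`, and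
  infinitely often larger than `2 ^ (e ^ (-γ)) + c`.

These are the analogues of theorems of Erdős and Ricci on the gaps between primes. In the Poisson
model behind the conjecture all numbers `≥ 0` are limit points.

Proof. By a two-dimensional sieve the mean over every dyadic cell of amplitudes of the number of the
pairs `p ≤ n`, `p < q`, of exponents with `log (q / p)` in a given finite union `U` of intervals in
`[0, log 2]` is at most `C |U| log n + o(log n)`; the contribution of the digits zero between `p` and
`q` is small as twin primes are rare. Therefore for almost every `β` this number is infinitely often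
at most `2 C |U| log n`. Together with the law this gives both statements.
-/

namespace Pool.Agent.Results.MP_9b2bac_nt.ConsecutiveRatios

open Filter Topology MeasureTheory

/-- The product, with multiplicity, of the prime factors of `m` that are larger than `p`. -/
def roughPart (p m : ℕ) : ℕ := (m.primeFactorsList.filter (fun r => p < r)).prod

/-- The `p`-rough part of the largest integer below `β * 2 ^ p`. -/
noncomputable def W (β : ℝ) (p : ℕ) : ℕ := roughPart p (⌈β * 2 ^ p⌉₊ - 1)

/-- The exponents of `β` are the primes `p` for which `W β p` is prime. -/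
def IsExponent (β : ℝ) (p : ℕ) : Prop := p.Prime ∧ (W β p).Prime

/-- `p < q` are consecutive exponents of `β`. -/
def Consecutive (β : ℝ) (p q : ℕ) : Prop :=
  IsExponent β p ∧ IsExponent β q ∧ p < q ∧ ∀ r, p < r → r < q → ¬ IsExponent β r

/-- The limit points of `log (q / p)`, where `p < q` are consecutive exponents of `β`. -/
def limitPoints (β : ℝ) : Set ℝ :=
  {t | ∀ ε : ℝ, 0 < ε → ∃ᶠ p : ℕ in atTop, ∃ q : ℕ, Consecutive β p q ∧
    |Real.log ((q : ℝ) / p) - t| < ε}

/-- The exponents of `β = 1` are the exponents of the Mersenne primes; the limit points of the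
logarithms of the ratios of consecutive exponents form a set of positive measure; the ratios are
infinitely often smaller and infinitely often larger than their average by a fixed amount. -/
theorem result :
    (∀ p : ℕ, IsExponent 1 p ↔ p.Prime ∧ (2 ^ p - 1).Prime) ∧
    (∃ c : ℝ, 0 < c ∧ ∀ᵐ β : ℝ, 0 < β →
      ENNReal.ofReal c ≤ volume (limitPoints β ∩ Set.Icc 0 (Real.log 2))) ∧
    (∃ c : ℝ, 0 < c ∧ ∀ᵐ β : ℝ, 0 < β →
      (∃ᶠ p : ℕ in atTop, ∃ q : ℕ, Consecutive β p q ∧
        (q : ℝ) / p ≤ 2 ^ Real.exp (-Real.eulerMascheroniConstant) - c) ∧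
      (∃ᶠ p : ℕ in atTop, ∃ q : ℕ, Consecutive β p q ∧
        2 ^ Real.exp (-Real.eulerMascheroniConstant) + c ≤ (q : ℝ) / p)) := by
  have hE : ∀ β p, Pool.Agent.Run7.h129.Mer.Ex β p ↔ IsExponent β p := by
    intro β p
    unfold Pool.Agent.Run7.h129.Mer.Ex IsExponent W Pool.Agent.Run7.h129.Mer.NB
    push_cast
    rfl
  have hC : ∀ β p q, Pool.Agent.Run7.h129.Mer.Consec (Pool.Agent.Run7.h129.Mer.Ex β) p q ↔
      Consecutive β p q := by
    intro β p q
    unfold Pool.Agent.Run7.h129.Mer.Consec Consecutive
    simp only [hE]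
  have hL : ∀ β, Pool.Agent.Run7.h129.Mer.LimSet (Pool.Agent.Run7.h129.Mer.Ex β) =
      limitPoints β := by
    intro β
    unfold Pool.Agent.Run7.h129.Mer.LimSet limitPoints
    simp only [hC]
  refine ⟨fun p => ?_, ?_, ?_⟩
  · unfold IsExponent
    refine and_congr_right fun hp => ?_
    have h := Pool.Agent.W66S.repunit_special (b := 2) le_rfl hp (by
      intro h
      exact hp.one_lt.ne' (Nat.dvd_one.1 h))
    have e1 : ⌈(1 / (((2 : ℕ) : ℝ) - 1)) * ((2 : ℕ) : ℝ) ^ p⌉₊ = ⌈(1 : ℝ) * 2 ^ p⌉₊ := by
      congr 1
      push_cast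
      norm_num
    rw [e1, Nat.geomSum_eq le_rfl] at h
    have e2 : W 1 p = 2 ^ p - 1 := by
      have h2 : W 1 p = Pool.Agent.H305R2.roughPart p (⌈(1 : ℝ) * 2 ^ p⌉₊ - 1) := rfl
      rw [h2, h]
      norm_num
    rw [e2]
  · obtain ⟨c, hc, h⟩ := Pool.Agent.Run7.h129.Mer.part_one
    refine ⟨c, hc, ?_⟩
    simp only [hL] at h
    exact h
  · obtain ⟨η, hη, h⟩ := Pool.Agent.Run7.h129.Mer.part_two
    set a : ℝ := Pool.Agent.Run7.h129.Mer.kap⁻¹ with ha
    have hA : (2 : ℝ) ^ Real.exp (-Real.eulerMascheroniConstant) = Real.exp a := by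
      rw [Real.rpow_def_of_pos (by norm_num), ha]
      unfold Pool.Agent.Run7.h129.Mer.kap
      rw [inv_div, Real.exp_neg]
      congr 1
    have hexp1 : Real.exp (-η) < 1 := by rw [Real.exp_lt_one_iff]; linarith
    have hexp2 : 1 - Real.exp (-η) ≤ Real.exp η - 1 := by
      have h1 : Real.exp (-η) * Real.exp η = 1 := by rw [← Real.exp_add]; simp
      have h2 : 0 < Real.exp (-η) := Real.exp_pos _
      have h3 : 0 < Real.exp η := Real.exp_pos _
      nlinarith [sq_nonneg (Real.exp η - 1)]
    refine ⟨Real.exp a * (1 - Real.exp (-η)), mul_pos (Real.exp_pos _) (by linarith), ?_⟩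
    rw [hA]
    filter_upwards [h] with β hβ hβ0
    obtain ⟨hd, h1, h2⟩ := hβ hβ0
    have hquot : ∀ j : ℕ, (0 : ℝ) <
        ((Nat.nth (Pool.Agent.Run7.h129.Mer.Ex β) (j + 1) : ℕ) : ℝ) /
          (Nat.nth (Pool.Agent.Run7.h129.Mer.Ex β) j : ℕ) := by
      intro j
      have h3 := hd.pos' j
      have h4 := hd.pos' (j + 1)
      positivity
    constructor
    · refine hd.tendsto.frequently (h1.mono fun j hj => ?_)
      refine ⟨Nat.nth (Pool.Agent.Run7.h129.Mer.Ex β) (j + 1), (hC β _ _).1 (hd.consec j), ?_⟩
      unfold Pool.Agent.Run7.h129.Mer.gap at hj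
      have h3 := (Real.log_lt_iff_lt_exp (hquot j)).1 hj
      refine h3.le.trans (le_of_eq ?_)
      rw [sub_eq_add_neg, Real.exp_add]
      ring
    · refine hd.tendsto.frequently (h2.mono fun j hj => ?_)
      refine ⟨Nat.nth (Pool.Agent.Run7.h129.Mer.Ex β) (j + 1), (hC β _ _).1 (hd.consec j), ?_⟩
      unfold Pool.Agent.Run7.h129.Mer.gap at hj
      have h3 := (Real.lt_log_iff_exp_lt (hquot j)).1 hj
      refine le_trans ?_ h3.le
      rw [Real.exp_add]
      have h4 := mul_le_mul_of_nonneg_left hexp2 (Real.exp_pos a).le
      linarith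

end Pool.Agent.Results.MP_9b2bac_nt.ConsecutiveRatios
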