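import Mathlib
import Pool.Agent.Run7.h129.Mer.Fin
import Pool.Agent.Run7.h129.LG.Up

set_option autoImplicit false

/-!
# Large ratios of consecutive exponents, for almost every amplitude in base two

For real `β > 0` and a prime `p` let `W β p` be the `p`-rough part (the product, with multiplicity,
of the prime factors larger than `p`) of the largest integer below `β * 2 ^ p`. For `β = 1` this is
the Mersenne number `2 ^ p - 1` itself. The exponents of `β` are the primes `p` with `W β p` prime.
The base `2` is fixed. By the law of the starting file `BaseTwoLaw` the number of the exponents up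
to `n` is asymptotic to `(e ^ γ / log 2) log n` for almost every `β`.

We prove that there are constants `0 < c ≤ C` such that for almost every `β > 0`

* the set of the limit points of `log (q / p)`, where `p < q` are consecutive exponents, has in
  `[0, T]` Lebesgue measure at least `c T`, for all `T ≥ 1`;
* for all large `n` the longest logarithmic gap `log (q / p)` between consecutive exponents
  `p < q ≤ n` is at least `c log log n` and at most `C log log n`.

In the Poisson model behind the conjecture all numbers `≥ 0` are limit points and the longest gap is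
asymptotic to a constant times `log log n`, so both statements have the conjectured order of
magnitude. The upper bound of the second statement follows from the starting library
`Pool.Agent.N176.GP`; the lower bound and the first statement are new.

Proof. The new tool is an upper bound sieve which works inside almost all dyadic cells of amplitudes
of level `z ≤ (1 - ε) q`, for the exponent `q`, with a constant independent of `ε` (Selberg weights
and a second moment over the cells); so the exponent `q` is decoupled from every event that depends
on the digits up to the level `(1 - ε) q`. With a subdivision of the logarithmic scale into steps so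
short that a step contains an exponent with probability at most `1 / 4`, this shows that a window of
`i` steps is void of exponents with probability at least `(3 / 4) ^ i`, uniformly in the digits
before. Many independent trials give the longest gap. For the limit points one adds, before and after
the void window, windows which contain exponents with positive probability, and bounds the number of
the pairs of exponents around the void window with a logarithmic ratio in a given short set.
-/

namespace Pool.Agent.Results.MP_9b2bac_nt.LargeRatios

open Filter Topology MeasureTheory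

/-- The product, with multiplicity, of the prime factors of `m` that are larger than `p`. -/
def roughPart (p m : ℕ) : ℕ := (m.primeFactorsList.filter (fun r => p < r)).prod

/-- The `p`-rough part of the largest integer below `β * 2 ^ p`. -/
noncomputable def W (β : ℝ) (p : ℕ) : ℕ := roughPart p (⌈β * 2 ^ p⌉₊ - 1)

/-- The exponents of `β` are the primes `p` for which `W β p` is prime. -/
def IsExponent (β : ℝ) (p : ℕ) : Prop := p.Prime ∧ (W β p).Prime

/-- `p < q` are consecutive exponents of `β`. -/
def Consecutive (β : ℝ) (p q : ℕ) : Prop :=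
  IsExponent β p ∧ IsExponent β q ∧ p < q ∧ ∀ r, p < r → r < q → ¬ IsExponent β r

/-- The limit points of `log (q / p)`, where `p < q` are consecutive exponents of `β`. -/
def limitPoints (β : ℝ) : Set ℝ :=
  {t | ∀ ε : ℝ, 0 < ε → ∃ᶠ p : ℕ in atTop, ∃ q : ℕ, Consecutive β p q ∧
    |Real.log ((q : ℝ) / p) - t| < ε}

/-- The exponents of `β = 1` are the exponents of the Mersenne primes; the limit points of the
logarithms of the ratios of consecutive exponents have positive lower density; the longest gap has
the order of magnitude `log log n`. -/
theorem result :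
    (∀ p : ℕ, IsExponent 1 p ↔ p.Prime ∧ (2 ^ p - 1).Prime) ∧
    (∃ c : ℝ, 0 < c ∧ ∀ᵐ β : ℝ, 0 < β → ∀ T : ℝ, 1 ≤ T →
      ENNReal.ofReal (c * T) ≤ volume (limitPoints β ∩ Set.Icc 0 T)) ∧
    (∃ c C : ℝ, 0 < c ∧ ∀ᵐ β : ℝ, 0 < β → ∀ᶠ n : ℕ in atTop,
      (∃ p q : ℕ, Consecutive β p q ∧ q ≤ n ∧
        c * Real.log (Real.log n) ≤ Real.log ((q : ℝ) / p)) ∧
      (∀ p q : ℕ, Consecutive β p q → q ≤ n →
        Real.log ((q : ℝ) / p) ≤ C * Real.log (Real.log n))) := by
  have hE : ∀ β p, Pool.Agent.Run7.h129.LG.Ex 2 β p ↔ IsExponent β p := by
    intro β p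
    unfold Pool.Agent.Run7.h129.LG.Ex IsExponent W Pool.Agent.N176.GP.NB
    push_cast
    rfl
  have hE2 : ∀ β p, Pool.Agent.Run7.h129.Mer.Ex β p ↔ IsExponent β p := by
    intro β p
    unfold Pool.Agent.Run7.h129.Mer.Ex IsExponent W Pool.Agent.Run7.h129.Mer.NB
    push_cast
    rfl
  have hC : ∀ β p q, Pool.Agent.Run7.h129.Mer.Consec (Pool.Agent.Run7.h129.LG.Ex 2 β) p q ↔
      Consecutive β p q := by
    intro β p q
    unfold Pool.Agent.Run7.h129.Mer.Consec Consecutive
    simp only [hE]
  have hL : ∀ β, Pool.Agent.Run7.h129.Mer.LimSet (Pool.Agent.Run7.h129.LG.Ex 2 β) =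
      limitPoints β := by
    intro β
    unfold Pool.Agent.Run7.h129.Mer.LimSet limitPoints
    simp only [hC]
  have hL2 : ∀ β, Pool.Agent.Run7.h129.Mer.LimSet (Pool.Agent.Run7.h129.Mer.Ex β) =
      limitPoints β := by
    intro β
    unfold Pool.Agent.Run7.h129.Mer.LimSet limitPoints Pool.Agent.Run7.h129.Mer.Consec Consecutive
    simp only [hE2]
  refine ⟨fun p => ?_, ?_, ?_⟩
  · unfold IsExponent
    refine and_congr_right fun hp => ?_
    have h := Pool.Agent.W66S.repunit_special (b := 2) le_rfl hp (by
      intro h
      exact hp.one_lt.ne' (Nat.dvd_one.1 h))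
    have e1 : ⌈(1 / (((2 : ℕ) : ℝ) - 1)) * ((2 : ℕ) : ℝ) ^ p⌉₊ = ⌈(1 : ℝ) * 2 ^ p⌉₊ := by
      congr 1
      push_cast
      norm_num
    rw [e1, Nat.geomSum_eq le_rfl] at h
    have e2 : W 1 p = 2 ^ p - 1 := by
      have h2 : W 1 p = Pool.Agent.H305R2.roughPart p (⌈(1 : ℝ) * 2 ^ p⌉₊ - 1) := rfl
      rw [h2, h]
      norm_num
    rw [e2]
  · obtain ⟨c1, hc1, h1⟩ := Pool.Agent.Run7.h129.Mer.part_one
    obtain ⟨c2, T0, hc2, hT0, h2⟩ := Pool.Agent.Run7.h129.LG.density (b := 2) le_rfl
    simp only [hL2] at h1
    simp only [hL] at h2
    have hl2 : Real.log 2 ≤ 1 := by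
      have := Real.log_two_lt_d9
      linarith
    refine ⟨min c2 (c1 / T0), lt_min hc2 (by positivity), ?_⟩
    filter_upwards [h1, h2] with β hβ1 hβ2 hβ0 T hT
    rcases le_total T0 T with h3 | h3
    · refine (ENNReal.ofReal_le_ofReal ?_).trans (hβ2 hβ0 T h3)
      exact mul_le_mul_of_nonneg_right (min_le_left _ _) (by linarith)
    · refine (ENNReal.ofReal_le_ofReal ?_).trans ((hβ1 hβ0).trans
        (measure_mono (Set.inter_subset_inter_right _ (Set.Icc_subset_Icc_right (hl2.trans hT)))))
      have h4 : min c2 (c1 / T0) * T ≤ c1 / T0 * T0 :=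
        mul_le_mul (min_le_right _ _) h3 (by linarith) (by positivity)
      refine h4.trans (le_of_eq ?_)
      field_simp
  · obtain ⟨c, hc, h1⟩ := Pool.Agent.Run7.h129.LG.longest (b := 2) le_rfl
    obtain ⟨C, hC0, h2⟩ := Pool.Agent.Run7.h129.LG.longest_le (b := 2) le_rfl
    simp only [hC] at h1 h2
    refine ⟨c, C, hc, ?_⟩
    filter_upwards [h1, h2] with β hβ1 hβ2 hβ0
    filter_upwards [hβ1 hβ0, hβ2 hβ0] with n hn1 hn2
    exact ⟨hn1, hn2⟩

end Pool.Agent.Results.MP_9b2bac_nt.LargeRatios
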