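import Mathlib
import Pool.Agent.Run7.h129.Two.Fin

set_option autoImplicit false

/-!
# The ratios of exponents for almost every pair (base, amplitude)

For real `x > 0`, `y` and a prime `p` let `W x y p` be the `p`-rough part (the product, with
multiplicity, of the prime factors larger than `p`) of the largest integer below
`exp (p x + y) = β α ^ p`, where `α = exp x` is the base and `β = exp y` the amplitude.  At
`(x, y) = (log 2, 0)` it is the Mersenne number `2 ^ p - 1`.  The exponents of `(x, y)` are the primes
`p` with `W x y p` prime.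

We prove that for Lebesgue almost every pair `(x, y)` with `x > 0`

* every real number `≥ 1` is a limit point of the ratios `q / p` of exponents `p < q`;
* the logarithms of the ratios of consecutive exponents have limit points at all small scales: for some
  `c > 0`, which depends on the pair, there is a limit point in `[c t, t]` for every `t` in `(0, 1]`;
* in particular the lower limit of the ratios of consecutive exponents is `1`.

All this is a part of the Poisson model behind the conjecture of the question, in which the exponents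
on the logarithmic scale form a Poisson process.

Proof.  The mean over a box of `(x, y)` of the number of the pairs of exponents in two short windows is
known (starting file `PairCorrelation`).  The new ingredient is an upper bound for triples of exponents
`a, b, c` with `a ≤ (1 - s) c` although there are only two parameters: along the direction in which
`b x + y` is constant we average the third indicator over a distance shorter than the cells of the
first one, by the theorem of Brun and Titchmarsh for intervals of integers of length `exp (κ c)`.  Hence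
the probability that both windows contain an exponent and that there are at most `M` exponents in
between is bounded below, uniformly in small squares, and the density theorem gives the result.
-/

namespace Pool.Agent.Results.MP_9b2bac_nt.RatiosOfExponents

open Filter Topology MeasureTheory

/-- The product, with multiplicity, of the prime factors of `m` that are larger than `p`. -/
def roughPart (p m : ℕ) : ℕ := (m.primeFactorsList.filter (fun r => p < r)).prod

/-- The `p`-rough part of the largest integer below `exp (p x + y)`. -/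
noncomputable def W (x y : ℝ) (p : ℕ) : ℕ := roughPart p (⌈Real.exp (p * x + y)⌉₊ - 1)

/-- The exponents of `v = (x, y)` are the primes `p` for which `W x y p` is prime. -/
def IsExponent (v : ℝ × ℝ) (p : ℕ) : Prop := p.Prime ∧ (W v.1 v.2 p).Prime

/-- `p < q` are consecutive exponents of `v`. -/
def Consecutive (v : ℝ × ℝ) (p q : ℕ) : Prop :=
  IsExponent v p ∧ IsExponent v q ∧ p < q ∧ ∀ r, p < r → r < q → ¬ IsExponent v r

/-- The limit points of `log (q / p)`, where `p < q` are exponents of `v`. -/
def pairLimits (v : ℝ × ℝ) : Set ℝ :=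
  {t | ∀ ε : ℝ, 0 < ε → ∃ᶠ p : ℕ in atTop, ∃ q : ℕ, IsExponent v p ∧ IsExponent v q ∧ p < q ∧
    |Real.log ((q : ℝ) / p) - t| < ε}

/-- The limit points of `log (q / p)`, where `p < q` are consecutive exponents of `v`. -/
def consecutiveLimits (v : ℝ × ℝ) : Set ℝ :=
  {t | ∀ ε : ℝ, 0 < ε → ∃ᶠ p : ℕ in atTop, ∃ q : ℕ, Consecutive v p q ∧
    |Real.log ((q : ℝ) / p) - t| < ε}

lemma W_mersenne {p : ℕ} (hp : p.Prime) : W (Real.log 2) 0 p = 2 ^ p - 1 := by
  have e1 : Real.exp (p * Real.log 2 + 0) = ((2 ^ p : ℕ) : ℝ) := by
    rw [add_zero, mul_comm, Real.exp_mul, Real.exp_log two_pos, Real.rpow_natCast]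
    push_cast
    rfl
  unfold W
  rw [e1, Nat.ceil_natCast]
  unfold roughPart
  rw [List.filter_eq_self.2, Nat.prod_primeFactorsList]
  · have h := hp.two_le
    have : 2 ^ 2 ≤ 2 ^ p := Nat.pow_le_pow_right (by norm_num) h
    omega
  · intro r hr
    obtain ⟨hr1, hr2⟩ := Nat.mem_primeFactorsList'.1 hr
    -- the order of `2` modulo `r` is `p`
    have hr2' := hr2.1
    have : Fact r.Prime := ⟨hr1⟩
    have : Fact p.Prime := ⟨hp⟩
    have h1 : (2 : ZMod r) ^ p = 1 := by
      have h3 : ((2 ^ p - 1 : ℕ) : ZMod r) = 0 := (ZMod.natCast_eq_zero_iff _ _).2 hr2'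
      rw [Nat.cast_sub Nat.one_le_two_pow] at h3
      push_cast at h3
      exact sub_eq_zero.1 h3
    have h2 : (2 : ZMod r) ≠ 1 := by
      intro h
      have : (1 : ZMod r) = 0 := by linear_combination h
      exact one_ne_zero this
    have h4 : orderOf (2 : ZMod r) = p := orderOf_eq_prime h1 h2
    have h5 : (2 : ZMod r) ≠ 0 := by
      intro h
      rw [h, zero_pow hp.ne_zero] at h1
      exact zero_ne_one h1
    have h6 : orderOf (2 : ZMod r) ∣ r - 1 := orderOf_dvd_of_pow_eq_one (ZMod.pow_card_sub_one_eq_one h5)
    rw [h4] at h6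
    have h7 : p ≤ r - 1 := Nat.le_of_dvd (by have := hr1.two_le; omega) h6
    have := hr1.two_le
    simp only [decide_eq_true_eq]
    omega

/-- At `(log 2, 0)` the exponents are the exponents of the Mersenne primes; for almost every pair the
limit points of the logarithms of the ratios of exponents are all the numbers `≥ 0`; for almost every
pair those of consecutive exponents meet `[c t, t]` for all `t ≤ 1`, in particular the ratio of
consecutive exponents is infinitely often smaller than `1 + ε`, for every `ε > 0`. -/
theorem result :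
    (∀ p : ℕ, IsExponent (Real.log 2, 0) p ↔ p.Prime ∧ (2 ^ p - 1).Prime) ∧
    (∀ᵐ v : ℝ × ℝ, 0 < v.1 → pairLimits v = Set.Ici 0) ∧
    (∀ᵐ v : ℝ × ℝ, 0 < v.1 → ∃ c : ℝ, 0 < c ∧ ∀ t : ℝ, 0 < t → t ≤ 1 →
      (consecutiveLimits v ∩ Set.Icc (c * t) t).Nonempty) ∧
    (∀ᵐ v : ℝ × ℝ, 0 < v.1 → ∀ ε : ℝ, 0 < ε → ∃ᶠ p : ℕ in atTop, ∃ q : ℕ,
      Consecutive v p q ∧ (q : ℝ) / p < 1 + ε) := by
  have hE : ∀ v p, Pool.Agent.Run7.h129.Two.Ex v p ↔ IsExponent v p := fun _ _ => Iff.rfl
  have hL : ∀ v, Pool.Agent.Run7.h129.Mer.LimSet (Pool.Agent.Run7.h129.Two.Ex v) =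
      consecutiveLimits v := fun _ => rfl
  have hmain := Pool.Agent.Run7.h129.Two.main
  refine ⟨fun p => ?_, ?_, ?_, ?_⟩
  · unfold IsExponent
    refine and_congr_right fun hp => ?_
    simp only [W_mersenne hp]
  · filter_upwards [hmain] with v hv hv0
    obtain ⟨h1, _⟩ := hv hv0
    ext t
    rw [Set.mem_Ici]
    constructor
    · intro ht
      by_contra hneg
      push Not at hneg
      obtain ⟨p, ⟨q, h2, _, h3, h4⟩⟩ := (ht (-t) (by linarith)).exists
      have hp0 : (0 : ℝ) < p := by exact_mod_cast h2.1.pos
      have h5 : 0 ≤ Real.log ((q : ℝ) / p) := Real.log_nonneg (by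
        rw [le_div_iff₀ hp0, one_mul]
        exact_mod_cast h3.le)
      rw [abs_lt] at h4
      linarith
    · intro ht ε hε
      exact h1 t ht ε hε
  · filter_upwards [hmain] with v hv hv0
    obtain ⟨_, c, hc, h2⟩ := hv hv0
    refine ⟨c, hc, fun t ht ht1 => ?_⟩
    obtain ⟨l, hl1, hl2⟩ := h2 t ht ht1
    exact ⟨l, hl2, hl1⟩
  · filter_upwards [hmain] with v hv hv0 ε hε
    obtain ⟨_, c, hc, h2⟩ := hv hv0
    have hlog : 0 < Real.log (1 + ε) := Real.log_pos (by linarith)
    obtain ⟨l, hl1, hl2⟩ := h2 (min 1 (Real.log (1 + ε) / 2)) (by positivity) (min_le_left _ _)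
    have hl3 : l ≤ Real.log (1 + ε) / 2 := hl1.2.trans (min_le_right _ _)
    have h3 : ∃ᶠ p : ℕ in atTop, ∃ q : ℕ, Consecutive v p q ∧
        |Real.log ((q : ℝ) / p) - l| < Real.log (1 + ε) / 2 := hl2 _ (by positivity)
    refine h3.mono ?_
    rintro p ⟨q, hq1, hq2⟩
    refine ⟨q, hq1, ?_⟩
    have hp0 : (0 : ℝ) < p := by exact_mod_cast hq1.1.1.pos
    have hq0 : (0 : ℝ) < q := by exact_mod_cast hq1.2.1.1.pos
    have h4 := (abs_lt.1 hq2).2
    have h5 : Real.log ((q : ℝ) / p) < Real.log (1 + ε) := by linarith
    exact (Real.log_lt_log_iff (by positivity) (by linarith)).1 h5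

end Pool.Agent.Results.MP_9b2bac_nt.RatiosOfExponents
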