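import Pool.Agent.Run7.h370.BaseTwo

/-!
# Sparse multiples of divisors of Mersenne numbers with prime exponent

Let `p` be a prime, and let `N = ∑_{i ∈ S} u_i 2 ^ i` with `|S| = s` and arbitrary integers `u_i`.  If `2 ^ p - 1` does
not divide `N` then, for every `t ≥ 1` with `t ^ (s - 1) < p`,
`gcd (2 ^ p - 1, N) ≤ (∑ |u_i|) ^ (t ^ (s - 1)) 2 ^ (2 (p / t))`.
So for every `δ > 0` there is `c > 0` such that all the multiples of a divisor `d ≥ 2 ^ (δ p)` of `2 ^ p - 1`, other than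
the multiples of `2 ^ p - 1`, have at least `c log p` nonzero digits in every expansion with digits `0, 1, -1` in base `2`,
and their digits are not contained in fewer than `c log (p / (ℓ + 1))` intervals of length `ℓ`.  This applies to all the
proper divisors `d` with `d ^ 2 ≥ 2 ^ p - 1` if `2 ^ p - 1` is composite.

Proof (`Pool/Agent/Run7/h370`).  Take `q ≤ t ^ (s - 1)` such that all `q (i - i_0)` are close to multiples of `p`.  Modulo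
`2 ^ p - 1` the number `2` has a `q`-th root `y`, a power of `2`; so `N / 2 ^ (i_0)` is the value at `y` of a Laurent
polynomial with small exponents.  The polynomial `X ^ q - 2` is irreducible, so either the Laurent polynomial vanishes
modulo this binomial, and then `2 ^ p - 1` divides `N`, or their resultant is a nonzero integer which is a multiple of the
greatest common divisor.
-/

set_option autoImplicit false

namespace Pool.Agent.Results.MP_9b2bac_nt.SparseMultiples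

open Run7.h370

/-- **Sparse multiples of divisors of Mersenne numbers.** -/
theorem result :
    -- arbitrary coefficients
    (∀ p : ℕ, p.Prime → ∀ (S : Finset ℕ) (u : ℕ → ℤ) (t : ℕ), 0 < t → t ^ (S.card - 1) < p →
      ¬ (2 : ℤ) ^ p - 1 ∣ ∑ i ∈ S, u i * 2 ^ i →
      (Int.gcd (2 ^ p - 1) (∑ i ∈ S, u i * 2 ^ i) : ℤ) ≤
        (∑ i ∈ S, |u i|) ^ (t ^ (S.card - 1)) * 2 ^ (2 * (p / t))) ∧
    -- large divisors have no sparse multiples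
    (∀ δ : ℝ, 0 < δ → ∃ c : ℝ, 0 < c ∧ ∀ p : ℕ, p.Prime → ∀ (S : Finset ℕ) (u : ℕ → ℤ) (ℓ : ℕ),
      (∀ i ∈ S, |u i| ≤ 2 ^ ℓ) → ¬ (2 : ℤ) ^ p - 1 ∣ ∑ i ∈ S, u i * 2 ^ i →
      (2 : ℝ) ^ (δ * p) ≤ (Int.gcd (2 ^ p - 1) (∑ i ∈ S, u i * 2 ^ i) : ℝ) →
      c * Real.log (p / (ℓ + 1)) ≤ S.card) ∧
    -- the large proper divisors
    (∃ c : ℝ, 0 < c ∧ ∀ p : ℕ, p.Prime → ∀ d : ℤ, d ∣ 2 ^ p - 1 → 0 < d → d < 2 ^ p - 1 →
      2 ^ p - 1 ≤ d ^ 2 → ∀ (S : Finset ℕ) (u : ℕ → ℤ) (ℓ : ℕ),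
      (∀ i ∈ S, |u i| ≤ 2 ^ ℓ) → d = ∑ i ∈ S, u i * 2 ^ i →
      c * Real.log (p / (ℓ + 1)) ≤ S.card) := by
  have hA : ∀ p : ℕ, p.Prime → ∀ (S : Finset ℕ) (u : ℕ → ℤ) (t : ℕ), 0 < t →
      t ^ (S.card - 1) < p → ¬ (2 : ℤ) ^ p - 1 ∣ ∑ i ∈ S, u i * 2 ^ i →
      (Int.gcd (2 ^ p - 1) (∑ i ∈ S, u i * 2 ^ i) : ℤ) ≤
        (∑ i ∈ S, |u i|) ^ (t ^ (S.card - 1)) * 2 ^ (2 * (p / t)) := by
    intro p hp S u t ht hts hnd
    exact gcdMinus 2 Nat.prime_two.squarefree le_rfl p hp S u t ht hts hnd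
  have hC : ∀ δ : ℝ, 0 < δ → ∃ c : ℝ, 0 < c ∧ ∀ p : ℕ, p.Prime →
      ∀ (S : Finset ℕ) (u : ℕ → ℤ) (ℓ : ℕ),
      (∀ i ∈ S, |u i| ≤ 2 ^ ℓ) → ¬ (2 : ℤ) ^ p - 1 ∣ ∑ i ∈ S, u i * 2 ^ i →
      (2 : ℝ) ^ (δ * p) ≤ (Int.gcd (2 ^ p - 1) (∑ i ∈ S, u i * 2 ^ i) : ℝ) →
      c * Real.log (p / (ℓ + 1)) ≤ S.card := by
    intro δ hδ
    obtain ⟨c, hc0, hc⟩ := asymGcd 2 le_rfl δ hδ
    exact ⟨c, hc0, fun p hp S u ℓ hu hnd hbig =>
      hc p (2 ^ p - 1) hp.pos S u ℓ hu hnd hbig (fun t ht hts => hA p hp S u t ht hts hnd)⟩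
  refine ⟨hA, hC, ?_⟩
  obtain ⟨c, hc0, hc⟩ := hC (1 / 4) (by norm_num)
  refine ⟨c, hc0, fun p hp d hd hd0 hd1 hd2 S u ℓ hu hdS => ?_⟩
  refine hc p hp S u ℓ hu (by
    rw [← hdS]
    intro h
    exact absurd (Int.le_of_dvd hd0 h) (not_le.2 hd1)) ?_
  rw [← hdS]
  have h1 : (Int.gcd (2 ^ p - 1) d : ℤ) = d := by
    rw [Int.gcd_comm, Int.gcd_eq_left_iff_dvd hd0.le |>.2 hd]
  have h2 : (Int.gcd (2 ^ p - 1) d : ℝ) = (d : ℝ) := by exact_mod_cast h1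
  rw [h2]
  have h3 : ((2 : ℝ) ^ ((1 / 4 : ℝ) * p)) ^ 2 ≤ (d : ℝ) ^ 2 := by
    rw [← Real.rpow_natCast, ← Real.rpow_mul (by norm_num)]
    have e : (1 / 4 : ℝ) * p * ((2 : ℕ) : ℝ) ≤ ((p - 1 : ℕ) : ℝ) := by
      rw [Nat.cast_sub hp.one_lt.le]
      have : (2 : ℝ) ≤ p := by exact_mod_cast hp.two_le
      push_cast
      linarith
    refine (Real.rpow_le_rpow_of_exponent_le (by norm_num) e).trans ?_
    rw [Real.rpow_natCast]
    have h4 : (2 : ℤ) ^ (p - 1) ≤ d ^ 2 := by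
      refine le_trans ?_ hd2
      have h5 : (2 : ℤ) ^ p = 2 * 2 ^ (p - 1) := by
        rw [← pow_succ']
        congr 1
        have := hp.one_lt
        omega
      have h6 : (1 : ℤ) ≤ 2 ^ (p - 1) := one_le_pow₀ (by norm_num)
      linarith
    exact_mod_cast h4
  exact (pow_le_pow_iff_left₀ (by positivity) (by exact_mod_cast hd0.le) two_ne_zero).1 h3

end Pool.Agent.Results.MP_9b2bac_nt.SparseMultiples
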